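import Pool.Agent.H41.AL.Defs

set_option autoImplicit false

/-! Step F5 (`S_CUT`) of project AL. -/

namespace Pool.Agent.H78.AL

open Finset Pool.Agent.H41.AL

/-- the real inequality -/
theorem real_part {η' Am θ ξ η a s t n w : ℝ} (h0 : 0 < η') (h1 : η' < 1) (hAm : 1 ≤ Am)
    (hθ : θ = η' / (2 * Am)) (hξ : ξ = θ ^ 2 / 2) (hη0 : 0 < η) (hη1 : η ≤ η' / 2)
    (hη2 : 2 * η ≤ ξ * η') (hη3 : 3 * η ≤ θ ^ 4 / 8) (hn : 0 < n) (hn1 : 2 * Am ≤ θ ^ 4 / 8 * n)
    (ha : 1 ≤ a) (ha1 : a ≤ Am) (hs : 0 ≤ s) (hsn : s ≤ n) (ht : 0 ≤ t) (htn : t ≤ n)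
    (hb : n < s + t)
    (w1 : s * ((1 - η) * n) - (n - t) * ((1 + η) * n) ≤ w)
    (w2 : s * ((1 - η) * n - a * (n - t)) ≤ w) (w3 : t * ((1 - η) * n - a * (n - s)) ≤ w)
    (w4 : (w - s * t) ^ 2 ≤ t * (2 * a * s * n + 3 * η * s ^ 2 * n)) :
    (1 - η') * n * (s + t - n) ≤ w := by
  have hθ0 : 0 < θ := by
    rw [hθ]
    positivity
  have hθA : Am * θ = η' / 2 := by
    rw [hθ]
    field_simp
  have haθ : a * θ ≤ η' / 2 := by
    rw [← hθA]
    exact mul_le_mul_of_nonneg_right ha1 hθ0.le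
  rcases le_or_gt (ξ * n) (s + t - n) with c1 | c1
  · -- case 1
    have h2 : η * (s + (n - t)) ≤ η * (2 * n) := mul_le_mul_of_nonneg_left (by linarith) hη0.le
    have h3 : 2 * η * n ≤ η' * (s + t - n) := by
      calc 2 * η * n ≤ ξ * η' * n := mul_le_mul_of_nonneg_right hη2 hn.le
        _ = η' * (ξ * n) := by ring
        _ ≤ _ := mul_le_mul_of_nonneg_left c1 h0.le
    have h4 : n * ((1 - η') * (s + t - n)) ≤ n * ((s + t - n) - η * (s + (n - t))) :=
      mul_le_mul_of_nonneg_left (by linarith) hn.le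
    nlinarith
  rcases le_or_gt (n - t) (θ * n) with c2 | c2
  · -- case 2a
    have h2 : a * (n - t) ≤ η' / 2 * n := by
      calc a * (n - t) ≤ a * (θ * n) := mul_le_mul_of_nonneg_left c2 (by linarith)
        _ = a * θ * n := by ring
        _ ≤ _ := mul_le_mul_of_nonneg_right haθ hn.le
    have h3 : (1 - η') * n ≤ (1 - η) * n - a * (n - t) := by
      have : η * n ≤ η' / 2 * n := mul_le_mul_of_nonneg_right hη1 hn.le
      linarith
    have h4 : s * ((1 - η') * n) ≤ w := (mul_le_mul_of_nonneg_left h3 hs).trans w2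
    have h5 : (1 - η') * n * (s + t - n) ≤ (1 - η') * n * s :=
      mul_le_mul_of_nonneg_left (by linarith) (mul_nonneg (by linarith) hn.le)
    linarith
  rcases le_or_gt t (θ * n) with c3 | c3
  · -- case 2b
    have h2 : a * (n - s) ≤ η' / 2 * n := by
      calc a * (n - s) ≤ a * (θ * n) := mul_le_mul_of_nonneg_left (by linarith) (by linarith)
        _ = a * θ * n := by ring
        _ ≤ _ := mul_le_mul_of_nonneg_right haθ hn.le
    have h3 : (1 - η') * n ≤ (1 - η) * n - a * (n - s) := by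
      have : η * n ≤ η' / 2 * n := mul_le_mul_of_nonneg_right hη1 hn.le
      linarith
    have h4 : t * ((1 - η') * n) ≤ w := (mul_le_mul_of_nonneg_left h3 ht).trans w3
    have h5 : (1 - η') * n * (s + t - n) ≤ (1 - η') * n * t :=
      mul_le_mul_of_nonneg_left (by linarith) (mul_nonneg (by linarith) hn.le)
    linarith
  · -- case 2c
    have hs1 : θ * n < s := by linarith
    have h2 : t * (2 * a * s * n + 3 * η * s ^ 2 * n) ≤ (θ ^ 2 * n ^ 2 / 2) ^ 2 := by
      have e1 : 2 * a * s * n ≤ 2 * Am * n * n := by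
        have := mul_le_mul ha1 hsn hs (by linarith)
        nlinarith
      have e2 : s ^ 2 ≤ n ^ 2 := pow_le_pow_left₀ hs hsn 2
      have e3 : 3 * η * s ^ 2 * n ≤ θ ^ 4 / 8 * n ^ 2 * n := by
        have e4 : 3 * η * s ^ 2 ≤ θ ^ 4 / 8 * n ^ 2 :=
          mul_le_mul hη3 e2 (sq_nonneg _) (by positivity)
        exact mul_le_mul_of_nonneg_right e4 hn.le
      have e5 : 2 * Am * n * n ≤ θ ^ 4 / 8 * n * n * n := by
        have := mul_le_mul_of_nonneg_right (mul_le_mul_of_nonneg_right hn1 hn.le) hn.le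
        linarith
      have e6 : 2 * a * s * n + 3 * η * s ^ 2 * n ≤ θ ^ 4 / 4 * n ^ 3 := by
        calc _ ≤ θ ^ 4 / 8 * n * n * n + θ ^ 4 / 8 * n ^ 2 * n := by linarith
          _ = _ := by ring
      have e7 : 0 ≤ 2 * a * s * n + 3 * η * s ^ 2 * n := by positivity
      calc _ ≤ n * (θ ^ 4 / 4 * n ^ 3) := mul_le_mul htn e6 e7 hn.le
        _ = _ := by ring
    have h3 : |w - s * t| ≤ θ ^ 2 * n ^ 2 / 2 := abs_le_of_sq_le_sq (w4.trans h2) (by positivity)
    have h4 : θ * n * (θ * n) ≤ s * t := mul_le_mul hs1.le c3.le (by positivity) hs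
    have h5 := (abs_le.1 h3).1
    have h6 : ξ * n * n ≤ w := by
      rw [hξ]
      nlinarith
    have h7 : n * (s + t - n) ≤ n * (ξ * n) := mul_le_mul_of_nonneg_left c1.le hn.le
    have h8 : 0 ≤ s + t - n := by linarith
    have h9 : 0 ≤ η' * n * (s + t - n) := by positivity
    nlinarith

theorem cut : S_CUT := by
  intro η' Am h0 h1 hAm
  set θ : ℝ := η' / (2 * Am) with hθ
  have hθ0 : 0 < θ := by positivity
  set ξ : ℝ := θ ^ 2 / 2 with hξ
  have hξ0 : 0 < ξ := by positivity
  set η : ℝ := min (min (η' / 2) (ξ * η' / 2)) (θ ^ 4 / 24) with hη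
  have hη0 : 0 < η := by positivity
  have hη1 : η ≤ η' / 2 := (min_le_left _ _).trans (min_le_left _ _)
  have hη2 : η ≤ ξ * η' / 2 := (min_le_left _ _).trans (min_le_right _ _)
  have hη3 : η ≤ θ ^ 4 / 24 := min_le_right _ _
  refine ⟨η, hη0, by linarith, ⌈16 * Am / θ ^ 4⌉₊ + 1, ?_⟩
  intro n hn W a ha1 haA hW L hL S T
  obtain ⟨hW1, hW2, hW3, hW4⟩ := hW
  have hη01 : η ≤ 1 := by linarith
  have hn0 : (0 : ℝ) < n := by
    have : 0 < n := by omega
    exact_mod_cast this
  have hn1 : 2 * Am ≤ θ ^ 4 / 8 * n := by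
    have h2 : 16 * Am / θ ^ 4 ≤ n := by
      refine (Nat.le_ceil _).trans ?_
      exact_mod_cast (by omega : ⌈16 * Am / θ ^ 4⌉₊ ≤ n)
    rw [div_le_iff₀ (by positivity)] at h2
    linarith
  have ha0 : 0 < a := by linarith
  set s : ℝ := (S.card : ℝ) with hs
  set t : ℝ := (T.card : ℝ) with ht
  have hsn : s ≤ n := by
    rw [hs]
    exact_mod_cast (card_le_univ S).trans (by rw [Fintype.card_fin])
  have htn : t ≤ n := by
    rw [ht]
    exact_mod_cast (card_le_univ T).trans (by rw [Fintype.card_fin])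
  have hTc : ((Tᶜ.card : ℕ) : ℝ) = n - t := by
    rw [card_compl, Fintype.card_fin, Nat.cast_sub ((card_le_univ T).trans (by rw [Fintype.card_fin]))]
  have hSc : ((Sᶜ.card : ℕ) : ℝ) = n - s := by
    rw [card_compl, Fintype.card_fin, Nat.cast_sub ((card_le_univ S).trans (by rw [Fintype.card_fin]))]
  set E : Finset (Fin n × Fin n) := (S ×ˢ T).filter fun p => W p.1 p.2 ≠ 0 with hE
  have hgoal : (L : ℝ) * (s + t) ≤ (E.card : ℝ) + L * n := by
    rcases le_or_gt (s + t) n with hst | hst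
    · have h2 : (L : ℝ) * (s + t) ≤ L * n := mul_le_mul_of_nonneg_left hst (Nat.cast_nonneg _)
      have h3 : (0 : ℝ) ≤ E.card := Nat.cast_nonneg _
      linarith
    set w : ℝ := ∑ j ∈ S, ∑ c ∈ T, W j c with hw
    have hwc : w = ∑ c ∈ T, ∑ j ∈ S, W j c := sum_comm
    have hwE : w ≤ a * E.card := by
      have h2 : w = ∑ p ∈ E, W p.1 p.2 := by
        rw [hw, ← sum_product', hE, sum_filter]
        refine sum_congr rfl fun p _ => ?_
        split_ifs with h
        · rfl
        · exact not_not.1 h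
      rw [h2]
      calc _ ≤ ∑ _p ∈ E, a := sum_le_sum fun p _ => (hW1 p.1 p.2).2
        _ = a * E.card := by rw [sum_const, nsmul_eq_mul, mul_comm]
    have hrow : ∀ j, (1 - η) * n ≤ rowS W j ∧ rowS W j ≤ (1 + η) * n := by
      intro j
      have := abs_le.1 (hW2 j)
      constructor <;> linarith
    have hcol : ∀ c, (1 - η) * n ≤ colS W c ∧ colS W c ≤ (1 + η) * n := by
      intro c
      have := abs_le.1 (hW3 c)
      constructor <;> linarith
    have hsplit : ∀ j, ∑ c ∈ T, W j c = rowS W j - ∑ c ∈ Tᶜ, W j c := by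
      intro j
      unfold rowS
      rw [← sum_add_sum_compl T, add_sub_cancel_right]
    have hsplit2 : ∀ c, ∑ j ∈ S, W j c = colS W c - ∑ j ∈ Sᶜ, W j c := by
      intro c
      unfold colS
      rw [← sum_add_sum_compl S, add_sub_cancel_right]
    have w1 : s * ((1 - η) * n) - (n - t) * ((1 + η) * n) ≤ w := by
      have h2 : w = ∑ j ∈ S, rowS W j - ∑ c ∈ Tᶜ, ∑ j ∈ S, W j c := by
        rw [hw, sum_congr rfl fun j _ => hsplit j, sum_sub_distrib]
        congr 1
        exact sum_comm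
      have h3 : s * ((1 - η) * n) ≤ ∑ j ∈ S, rowS W j := by
        calc _ = ∑ _j ∈ S, (1 - η) * n := by rw [sum_const, nsmul_eq_mul]
          _ ≤ _ := sum_le_sum fun j _ => (hrow j).1
      have h4 : ∑ c ∈ Tᶜ, ∑ j ∈ S, W j c ≤ (n - t) * ((1 + η) * n) := by
        calc _ ≤ ∑ _c ∈ Tᶜ, (1 + η) * (n : ℝ) := by
              refine sum_le_sum fun c _ => le_trans ?_ (hcol c).2
              exact sum_le_sum_of_subset_of_nonneg (subset_univ S) fun j _ _ => (hW1 j c).1
          _ = _ := by rw [sum_const, nsmul_eq_mul, hTc]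
      linarith
    have w2 : s * ((1 - η) * n - a * (n - t)) ≤ w := by
      calc _ = ∑ _j ∈ S, ((1 - η) * n - a * (n - t)) := by rw [sum_const, nsmul_eq_mul]
        _ ≤ w := by
          refine sum_le_sum fun j _ => ?_
          rw [hsplit j]
          have h2 : ∑ c ∈ Tᶜ, W j c ≤ a * (n - t) := by
            calc _ ≤ ∑ _c ∈ Tᶜ, a := sum_le_sum fun c _ => (hW1 j c).2
              _ = _ := by rw [sum_const, nsmul_eq_mul, hTc, mul_comm]
          have := (hrow j).1
          linarith
    have w3 : t * ((1 - η) * n - a * (n - s)) ≤ w := by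
      rw [hwc]
      calc _ = ∑ _c ∈ T, ((1 - η) * n - a * (n - s)) := by rw [sum_const, nsmul_eq_mul]
        _ ≤ _ := by
          refine sum_le_sum fun c _ => ?_
          rw [hsplit2 c]
          have h2 : ∑ j ∈ Sᶜ, W j c ≤ a * (n - s) := by
            calc _ ≤ ∑ _j ∈ Sᶜ, a := sum_le_sum fun j _ => (hW1 j c).2
              _ = _ := by rw [sum_const, nsmul_eq_mul, hSc, mul_comm]
          have := (hcol c).1
          linarith
    have w4 : (w - s * t) ^ 2 ≤ t * (2 * a * s * n + 3 * η * s ^ 2 * n) := by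
      set X : Fin n → ℝ := fun c => ∑ j ∈ S, W j c with hX
      have hX1 : s * ((1 - η) * n) ≤ ∑ c, X c := by
        have h2 : ∑ c, X c = ∑ j ∈ S, rowS W j := sum_comm
        rw [h2]
        calc _ = ∑ _j ∈ S, (1 - η) * n := by rw [sum_const, nsmul_eq_mul]
          _ ≤ _ := sum_le_sum fun j _ => (hrow j).1
      have hX2 : ∑ c, X c ^ 2 ≤ s * (a * ((1 + η) * n) + s * ((1 + η) * n)) := by
        have h2 : ∑ c, X c ^ 2 = ∑ j ∈ S, ∑ j' ∈ S, cod W j j' := by
          unfold cod
          calc ∑ c, X c ^ 2 = ∑ c, ∑ j ∈ S, ∑ j' ∈ S, W j c * W j' c :=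
                sum_congr rfl fun c _ => by rw [hX, sq, sum_mul_sum]
            _ = ∑ j ∈ S, ∑ c, ∑ j' ∈ S, W j c * W j' c := sum_comm
            _ = _ := sum_congr rfl fun j _ => sum_comm
        rw [h2]
        have h3 : ∀ j ∈ S, ∑ j' ∈ S, cod W j j' ≤ a * ((1 + η) * n) + s * ((1 + η) * n) := by
          intro j hj
          have h4 : ∀ j' ∈ S, cod W j j' ≤ (if j' = j then a * ((1 + η) * n) else 0)
              + (1 + η) * n := by
            intro j' _
            split_ifs with h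
            · subst h
              have h5 : cod W j' j' ≤ a * rowS W j' := by
                unfold cod rowS
                rw [mul_sum]
                exact sum_le_sum fun c _ =>
                  mul_le_mul_of_nonneg_right (hW1 j' c).2 (hW1 j' c).1
              have h6 : a * rowS W j' ≤ a * ((1 + η) * n) :=
                mul_le_mul_of_nonneg_left (hrow j').2 ha0.le
              have h7 : 0 ≤ (1 + η) * (n : ℝ) := by positivity
              linarith
            · rw [zero_add]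
              exact hW4 j j' (Ne.symm h)
          refine (sum_le_sum h4).trans (le_of_eq ?_)
          rw [sum_add_distrib, sum_ite_eq' S j, if_pos hj, sum_const, nsmul_eq_mul]
        calc _ ≤ ∑ _j ∈ S, (a * ((1 + η) * n) + s * ((1 + η) * n)) := sum_le_sum h3
          _ = _ := by rw [sum_const, nsmul_eq_mul]
      have h2 : ∑ c, (X c - s) ^ 2 ≤ 2 * a * s * n + 3 * η * s ^ 2 * n := by
        have h3 : ∑ c, (X c - s) ^ 2 = ∑ c, X c ^ 2 - 2 * s * ∑ c, X c + n * s ^ 2 := by
          calc _ = ∑ c, (X c ^ 2 - 2 * s * X c + s ^ 2) := sum_congr rfl fun c _ => by ring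
            _ = _ := by
              rw [sum_add_distrib, sum_sub_distrib, ← mul_sum, sum_const, card_univ,
                Fintype.card_fin, nsmul_eq_mul]
        rw [h3]
        have hs0 : 0 ≤ s := Nat.cast_nonneg _
        have h4 : 2 * s * (s * ((1 - η) * n)) ≤ 2 * s * ∑ c, X c :=
          mul_le_mul_of_nonneg_left hX1 (by positivity)
        have h5 : s * (a * ((1 + η) * n)) ≤ 2 * a * s * n := by
          have h6 : (1 + η) * (s * a * n) ≤ 2 * (s * a * n) :=
            mul_le_mul_of_nonneg_right (by linarith) (by positivity)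
          linarith
        nlinarith
      have h3 : w - s * t = ∑ c ∈ T, (X c - s) := by
        rw [sum_sub_distrib, sum_const, nsmul_eq_mul, hwc]
        ring
      rw [h3]
      refine (sq_sum_le_card_mul_sum_sq).trans ?_
      refine mul_le_mul_of_nonneg_left ?_ (Nat.cast_nonneg _)
      exact (sum_le_sum_of_subset_of_nonneg (subset_univ T) fun c _ _ => sq_nonneg _).trans h2
    have h2 := real_part h0 h1 hAm hθ hξ hη0 hη1 (by linarith) (by linarith) hn0 hn1 ha1 haA
      (Nat.cast_nonneg _) hsn (Nat.cast_nonneg _) htn hst w1 w2 w3 w4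
    have h3 : a * L ≤ (1 - η') * n := by
      rw [le_div_iff₀ ha0] at hL
      linarith
    have h4 : a * L * (s + t - n) ≤ (1 - η') * n * (s + t - n) :=
      mul_le_mul_of_nonneg_right h3 (by linarith)
    have h5 : a * (L * (s + t - n)) ≤ a * E.card := by linarith
    have h6 := le_of_mul_le_mul_left h5 ha0
    linarith
  have h2 : ((L * (S.card + T.card) : ℕ) : ℝ) ≤ ((E.card + L * n : ℕ) : ℝ) := by
    push_cast
    exact hgoal
  exact_mod_cast h2

end Pool.Agent.H78.AL
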